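import Pool.Agent.Helper20.MH.Goals
import Pool.Agent.Helper94.RT.PAR

/-!
# Packet MH-GUA: the parameters which are replaced by trivial ones if they are not admissible
-/

namespace Pool.Agent.Helper60.MH

open Pool.Agent.Helper65.LinSpace Pool.Agent.Helper78.Mpc Pool.Agent.Helper28.Ram Finset Filter
open Pool.Agent.Helper65.OH (kap)
open Pool.Agent.Helper28.Long (ZL)
open Pool.Agent.Helper65.RT (qT CT LSM)
open Pool.Agent.Helper94.RT (qT_pos qT_le qT_ll)
open Pool.Agent.Helper20.MH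

theorem lt01_ne {x y : ℕ} : lt01 x y ≠ 0 ↔ x < y := by
  unfold lt01
  split_ifs with h <;> simp [h]

theorem le01_ne {x y : ℕ} : le01 x y ≠ 0 ↔ x ≤ y := by
  unfold le01
  split_ifs with h <;> simp [h]

theorem ifz_ne {g a b : ℕ} (h : g ≠ 0) : ifz g a b = b := by
  unfold ifz
  rw [if_neg h]

theorem gd_ne {n D K S c R E G d : ℕ} (h : gd n D K S c R E G d ≠ 0) :
    0 < c ∧ 0 < E ∧ 0 < G ∧ D ≤ ll n ∧ S ≤ ZL n ∧ 1 + R ≤ G * E ∧
    capPow (3 * c) D (4 * (n + 1)) ≤ 4 * (n + 1) ∧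
    K * capPow (3 * c) D (4 * (n + 1)) ≤ (G * E - (1 + R)) * (c * K) ∧
    G * ((S + 1 + kap n * (K * D) + c * (K * (S + 1))) * E) +
      E * (S + 1 + kap n * (K * D) + K * capPow (3 * c) D (4 * (n + 1)) * (S + 1)) ≤ 4 * qT n ∧
    d * (G + 2) ≤ 4 * qT n ∧ (d + 1) * (kap n * (K * D) + 1) ≤ 4 * qT n ∧
    (d + 1) * ((kap n * (K * D) + 1) * E) ≤ 4 * (n + 1) := by
  unfold gd at h
  simpa only [mul_ne_zero_iff, lt01_ne, le01_ne] using h

theorem key (x t : ℕ) (ht : t ≤ 2000 * (Nat.log 2 x + 1)) : 2 ^ t ≤ CT x := by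
  refine (Nat.pow_le_pow_right (by norm_num) ht).trans ((two_pow_log_le x 2000).trans ?_)
  exact Nat.pow_le_pow_right (by omega) (by norm_num)

theorem key2 (x t : ℕ) (ht : t ≤ 100 * (Nat.log 2 x + 1)) : t ≤ CT x := by
  have h1 : t < 2 ^ t := Nat.lt_two_pow_self
  exact h1.le.trans (key x t (by omega))

theorem kap_le (n : ℕ) : kap n ≤ 10 * (n + 1) := by
  unfold Pool.Agent.Helper65.OH.kap
  have := ll_le n
  omega

theorem lam_le (x : ℕ) : (2 ^ (2 * ll (Nat.log 2 x))) ^ LW (Nat.log 2 x) ≤ CT x := by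
  rw [← pow_mul]
  apply key
  unfold LW
  have h := Nat.div_mul_le_self (Nat.log 2 x) (ll (Nat.log 2 x))
  calc 2 * ll (Nat.log 2 x) * (Nat.log 2 x / ll (Nat.log 2 x)) =
      2 * (Nat.log 2 x / ll (Nat.log 2 x) * ll (Nat.log 2 x)) := by ring
    _ ≤ _ := by omega

theorem gua : GUA_stmt := by
  intro eA eN eW st x y D K tp S c R E G d g hg m hm
  subst hm
  by_cases h0 : g = 0
  · -- trivial parameters
    have hκ : 0 < kap (Nat.log 2 x) := by
      unfold Pool.Agent.Helper65.OH.kap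
      omega
    have hq := qT_pos (Nat.log 2 x)
    have hm : prm g eA eN eW st x y D K tp S c R =
        ⟨eA, eN, eW, st, x, y, LW (Nat.log 2 x), 2 ^ (2 * ll (Nat.log 2 x)), CR x, 0, 0, tp, 0,
          kap (Nat.log 2 x), 1, 0⟩ := by
      rw [h0]
      rfl
    rw [hm, h0]
    have eE : ifz 0 1 E = 1 := rfl
    have eG : ifz 0 1 G = 1 := rfl
    have ed : ifz 0 0 d = 0 := rfl
    rw [eE, eG, ed]
    have hkap := kap_le (Nat.log 2 x)
    refine ⟨⟨?_, ?_, ?_, ?_⟩, ⟨hκ, Nat.one_pos, Nat.one_pos, Nat.one_pos⟩, ?_, ?_,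
      ⟨by positivity, lam_le x, ?_, key x _ ?_, ?_, ?_, ?_, ?_⟩, fun h => absurd rfl h⟩
    · simp [Sys.mach, Prm.sys, Sys.a, Sys.b, Pool.Agent.Helper65.RT.Mach.wn,
        Pool.Agent.Helper65.RT.Mach.wv]
      omega
    · simp [Sys.mach]
    · simp [Sys.mach, Prm.sys]
      omega
    · simp [Sys.mach, Prm.sys]
      omega
    · simp [Prm.sys]
    · simp [Prm.sys]
    · simpa using key2 x 1 (by omega)
    · show kap (Nat.log 2 x) ≤ _
      omega
    · simpa using key2 x 1 (by omega)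
    · apply key
      simp [Prm.sys, Sys.a]
      omega
    · apply key
      simp [Prm.sys, Sys.b]
      omega
    · apply key
      simp [Prm.sys]
      omega
  · obtain ⟨h1, h2, h3, h4, h5, h6, h7, h8, h9, h10, h11, h12⟩ := gd_ne (hg ▸ h0)
    have hm : prm g eA eN eW st x y D K tp S c R =
        ⟨eA, eN, eW, st, x, y, LW (Nat.log 2 x), 2 ^ (2 * ll (Nat.log 2 x)), CR x, D, K, tp, S,
          kap (Nat.log 2 x), c, R⟩ := by
      unfold prm
      rw [ifz_ne h0, ifz_ne h0, ifz_ne h0, ifz_ne h0, ifz_ne h0]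
    rw [hm, ifz_ne h0, ifz_ne h0, ifz_ne h0]
    have hcap : capPow (3 * c) D (4 * (Nat.log 2 x + 1)) = (3 * c) ^ D := by
      unfold capPow at h7 ⊢
      omega
    rw [hcap] at h7 h8 h9
    have hκ : 0 < kap (Nat.log 2 x) := by
      unfold Pool.Agent.Helper65.OH.kap
      omega
    have hkap := kap_le (Nat.log 2 x)
    have hq := qT_pos (Nat.log 2 x)
    have hqn := qT_le (Nat.log 2 x)
    have hGE : 1 ≤ G * E := Nat.mul_pos h3 h2
    have key' := key x
    have key2' := key2 x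
    have hlam := lam_le x
    have hsq := ll_sq_le (Nat.log 2 x)
    have hll := ll_le (Nat.log 2 x)
    have hkD : kap (Nat.log 2 x) * D ≤ 22 * (Nat.log 2 x + 1) := by
      calc kap (Nat.log 2 x) * D ≤ kap (Nat.log 2 x) * ll (Nat.log 2 x) :=
            Nat.mul_le_mul_left _ h4
        _ = 4 * (ll (Nat.log 2 x) * ll (Nat.log 2 x)) + 6 * ll (Nat.log 2 x) := by
            unfold Pool.Agent.Helper65.OH.kap
            ring
        _ ≤ _ := by omega
    have hβ : 0 < 2 ^ (2 * ll (Nat.log 2 x)) := by positivity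
    generalize LW (Nat.log 2 x) = Λ at *
    generalize 2 ^ (2 * ll (Nat.log 2 x)) = β at *
    generalize kap (Nat.log 2 x) = κ at *
    have ha : S + 1 + κ * (K * D) + c * (K * (S + 1)) ≤
        G * ((S + 1 + κ * (K * D) + c * (K * (S + 1))) * E) := by
      calc S + 1 + κ * (K * D) + c * (K * (S + 1)) =
          (S + 1 + κ * (K * D) + c * (K * (S + 1))) * 1 := by ring
        _ ≤ (S + 1 + κ * (K * D) + c * (K * (S + 1))) * (G * E) := Nat.mul_le_mul_left _ hGE
        _ = _ := by ring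
    have hb : S + 1 + κ * (K * D) + K * (3 * c) ^ D * (S + 1) ≤
        E * (S + 1 + κ * (K * D) + K * (3 * c) ^ D * (S + 1)) := Nat.le_mul_of_pos_left _ h2
    refine ⟨⟨h9, h10, h11, h12⟩, ⟨hκ, h1, h2, h3⟩, h6, h8,
      ⟨hβ, hlam, key2' _ ?_, key' _ ?_, ?_, key' _ ?_, key' _ ?_, key' _ ?_⟩,
      fun _ => h5⟩
    · show (3 * c) ^ D ≤ _
      omega
    · show κ ≤ _
      omega
    · rw [← pow_mul]
      exact key' _ (by show κ * D ≤ _; omega)
    · show (S + 1 + κ * (K * D) + c * (K * (S + 1))) * (R + 2) ≤ _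
      generalize S + 1 + κ * (K * D) + c * (K * (S + 1)) = a at *
      have h13 : a * (R + 2) ≤ 2 * (G * (a * E)) := by
        calc a * (R + 2) ≤ a * (2 * (G * E)) := Nat.mul_le_mul_left _ (by omega)
          _ = _ := by ring
      omega
    · show S + 1 + κ * (K * D) + K * (3 * c) ^ D * (S + 1) ≤ _
      omega
    · show κ * (K * D) + 1 ≤ _
      have h13 : 1 * (κ * (K * D) + 1) ≤ (d + 1) * (κ * (K * D) + 1) :=
        Nat.mul_le_mul_right _ (by omega)
      omega

end Pool.Agent.Helper60.MH
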